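import Mathlib

set_option autoImplicit false

namespace Pool.Agent.Results.MP_c3bf79_al.Counter
open Polynomial

/-- `p` lies in the integral span of the `X ^ n / n!` -/
def IsD (p : ℚ[X]) : Prop := ∀ n, ∃ z : ℤ, p.coeff n * n.factorial = z

lemma isD_zero : IsD 0 := fun n => ⟨0, by simp⟩

lemma isD_one : IsD 1 := fun n => ⟨if n = 0 then 1 else 0, by
  rw [coeff_one]; split_ifs with h <;> simp [h]⟩

lemma isD_add {p q : ℚ[X]} (hp : IsD p) (hq : IsD q) : IsD (p + q) := fun n => by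
  obtain ⟨a, ha⟩ := hp n
  obtain ⟨b, hb⟩ := hq n
  exact ⟨a + b, by simp [add_mul, ha, hb]⟩

lemma isD_neg {p : ℚ[X]} (hp : IsD p) : IsD (-p) := fun n => by
  obtain ⟨a, ha⟩ := hp n
  exact ⟨-a, by simp [ha]⟩

lemma isD_mul {p q : ℚ[X]} (hp : IsD p) (hq : IsD q) : IsD (p * q) := fun n => by
  choose a ha using hp
  choose b hb using hq
  refine ⟨∑ x ∈ Finset.HasAntidiagonal.antidiagonal n, n.choose x.1 * a x.1 * b x.2, ?_⟩
  rw [coeff_mul, Finset.sum_mul]
  push_cast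
  refine Finset.sum_congr rfl fun x hx => ?_
  obtain rfl : x.1 + x.2 = n := by simpa using hx
  rw [← ha, ← hb, ← Nat.add_choose_mul_factorial_mul_factorial x.1 x.2, Nat.choose_symm_add]
  push_cast; ring

lemma isD_x (n : ℕ) : IsD (monomial n (n.factorial : ℚ)⁻¹) := fun k => ⟨if n = k then 1 else 0, by
  rw [coeff_monomial]
  split_ifs with h
  · subst h; simp [Nat.factorial_ne_zero]
  · simp⟩

/-- the divided power algebra over `ℤ`: the integral span of the `X ^ n / n!` in `ℚ[X]` -/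
def D : Subring ℚ[X] where
  carrier := {p | IsD p}
  zero_mem' := isD_zero
  one_mem' := isD_one
  add_mem' := isD_add
  neg_mem' := isD_neg
  mul_mem' := isD_mul

/-- the basis element `x^{[n]} = X ^ n / n!` -/
noncomputable def x (n : ℕ) : D := ⟨monomial n (n.factorial : ℚ)⁻¹, isD_x n⟩

/-- the degree `k` part of `D` (zero for `k < 0`) -/
def Dpiece (k : ℤ) : Set D := {p | p = 0 ∨ ∃ (n : ℕ) (z : ℤ), k = n ∧ p = z • x n}

section
variable (A : Type) [CommRing A] {M N : Type} [AddCommGroup M] [Module A M] [AddCommGroup N] [Module A N]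

/-- `M` and `N`, with degree `j` parts `S j` and `T j`, are isomorphic as graded modules -/
def GIso (S : ℤ → Set M) (T : ℤ → Set N) : Prop :=
  ∃ e : M ≃ₗ[A] N, ∀ (j : ℤ) (t : M), t ∈ S j ↔ e t ∈ T j

/-- the truncation `τ_{≥ n}` -/
def trunc (S : ℤ → Set M) (n : ℤ) : Submodule A M := Submodule.span A (⋃ j ≥ n, S j)

/-- the truncations `τ_{≥ n}` are isomorphic as graded modules -/
def TruncIso (S : ℤ → Set M) (T : ℤ → Set N) (n : ℤ) : Prop :=
  GIso A (fun j => {t : trunc A S n | (t : M) ∈ S j}) (fun j => {t : trunc A T n | (t : N) ∈ T j})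
end

section
variable {A : Type} [CommRing A] (P : ℤ → Set A) {r s : ℕ} (d : Fin r → ℤ)

/-- the degree `j` part of the graded free module `⨁ i, A[-d i]`, `A` graded by `P` -/
def homog (j : ℤ) : Set (Fin r → A) := {v | ∀ i, v i ∈ P (j - d i)}

/-- the module with `r` generators and relations `R` -/
abbrev Coker (R : Fin s → Fin r → A) := (Fin r → A) ⧸ Submodule.span A (Set.range R)

/-- its degree `j` part, the generators having degrees `d` -/
def piece (R : Fin s → Fin r → A) (j : ℤ) : Set (Coker R) :=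
  Submodule.Quotient.mk '' homog P d j

/-- the truncations of the two cokernels are isomorphic as graded modules -/
def TauIso (R R' : Fin s → Fin r → A) (n : ℤ) : Prop := TruncIso A (piece P d R) (piece P d R') n

/-- the two cokernels are isomorphic as graded modules -/
def Iso (R R' : Fin s → Fin r → A) : Prop := GIso A (piece P d R) (piece P d R')

abbrev tau (R : Fin s → Fin r → A) (n : ℤ) : Submodule A (Coker R) := trunc A (piece P d R) n
end

def G (M : ℕ) (s : ℤ) : Prop :=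
  ∀ c : ℕ, c ∣ M → ((∃ a, c = 3 ^ a) → (c : ℤ) ∣ s + 1) ∧ (Nat.Coprime c 3 → (c : ℤ) ∣ s - 1)

lemma split3 {M : ℕ} (h : 0 < M) : ∃ a q, M = 3 ^ a * q ∧ Nat.Coprime q 3 := by
  obtain ⟨a, q, h1, h2⟩ := Nat.exists_eq_pow_mul_and_not_dvd h.ne' 3 (by norm_num)
  exact ⟨a, q, h2, ((Nat.Prime.coprime_iff_not_dvd Nat.prime_three).2 h1).symm⟩

lemma G_ex {M : ℕ} (h : 0 < M) : ∃ s, G M s := by
  obtain ⟨a, q, rfl, hq⟩ := split3 h
  have hc : IsCoprime ((3 ^ a : ℕ) : ℤ) (q : ℤ) := Nat.isCoprime_iff_coprime.2 (hq.symm.pow_left a)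
  obtain ⟨u, v, huv⟩ := hc
  refine ⟨1 - 2 * v * q, fun c hc => ⟨?_, fun h => ?_⟩⟩
  · rintro ⟨b, rfl⟩
    have : 3 ^ b ∣ 3 ^ a := (hq.symm.pow_left b).dvd_of_dvd_mul_right hc
    refine (Int.natCast_dvd_natCast.2 this).trans ⟨2 * u, by linear_combination (-2) * huv⟩
  · have : c ∣ q := (h.pow_right a).dvd_of_dvd_mul_left hc
    exact (Int.natCast_dvd_natCast.2 this).trans ⟨-2 * v, by ring⟩

lemma G_uniq {M : ℕ} (h : 0 < M) {s t : ℤ} (hs : G M s) (ht : G M t) : (M : ℤ) ∣ s - t := by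
  obtain ⟨a, q, rfl, hq⟩ := split3 h
  push_cast
  refine IsCoprime.mul_dvd (by exact_mod_cast Nat.isCoprime_iff_coprime.2 (hq.symm.pow_left a)) ?_ ?_
  · have := dvd_sub ((hs _ (dvd_mul_right _ _)).1 ⟨a, rfl⟩) ((ht _ (dvd_mul_right _ _)).1 ⟨a, rfl⟩)
    simpa using this
  · have := dvd_sub ((hs _ (dvd_mul_left _ _)).2 hq) ((ht _ (dvd_mul_left _ _)).2 hq)
    simpa using this

lemma G_sq {M : ℕ} (h : 0 < M) {s : ℤ} (hs : G M s) : (M : ℤ) ∣ s * s - 1 := by
  obtain ⟨a, q, rfl, hq⟩ := split3 h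
  have := mul_dvd_mul ((hs _ (dvd_mul_right _ _)).1 ⟨a, rfl⟩) ((hs _ (dvd_mul_left _ _)).2 hq)
  rw [← Nat.cast_mul] at this
  rw [show s * s - 1 = (s + 1) * (s - 1) by ring]
  exact this

lemma G12 : G 12 5 := by
  intro c hc
  have := Nat.le_of_dvd (by norm_num) hc
  constructor
  · rintro ⟨a, ha⟩
    have h3 : c = 1 ∨ 3 ∣ c ∧ ¬ 2 ∣ c := by
      rcases a with _ | a
      · left; simpa using ha
      · right; subst ha
        exact ⟨dvd_pow_self 3 (by omega), fun h => by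
          have := Nat.prime_two.dvd_of_dvd_pow h; omega⟩
    clear ha
    interval_cases c <;> omega
  · intro h
    have h3 : ¬ 3 ∣ c := (Nat.Prime.coprime_iff_not_dvd Nat.prime_three).1 h.symm
    clear h
    interval_cases c <;> omega

lemma x_zero : x 0 = 1 := Subtype.ext (by simp [x])
lemma x_one : (x 1 : ℚ[X]) = X := by simp [x]; rfl

lemma x_succ (n : ℕ) : x 1 * x n = ((n : ℤ) + 1) • x (n + 1) := Subtype.ext (by
  simp only [x, MulMemClass.mk_mul_mk, monomial_mul_monomial, AddSubgroupClass.coe_zsmul, smul_monomial,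
    add_comm 1 n, Nat.factorial_succ]
  congr 1
  have : (n.factorial : ℚ) ≠ 0 := by exact_mod_cast n.factorial_ne_zero
  have : (n + 1 : ℚ) ≠ 0 := by positivity
  simp; field_simp)

lemma ind {C : D → Prop} (h0 : C 0) (ha : ∀ p q, C p → C q → C (p + q))
    (hx : ∀ (n : ℕ) (z : ℤ), C (z • x (n + 1))) (f : D) (hf : (f : ℚ[X]).coeff 0 = 0) : C f := by
  choose a ha' using f.2
  have : f = ∑ n ∈ (f : ℚ[X]).support, a n • x n := Subtype.ext (by
    conv_lhs => rw [(f : ℚ[X]).as_sum_support]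
    push_cast
    refine Finset.sum_congr rfl fun n _ => ?_
    simp only [x, smul_monomial]
    congr 1
    have : (n.factorial : ℚ) ≠ 0 := by exact_mod_cast n.factorial_ne_zero
    rw [zsmul_eq_mul, ← ha']; field_simp)
  rw [this]
  refine Finset.sum_induction _ C ha h0 fun n hn => ?_
  rcases n with _ | n
  · exact absurd hf (mem_support_iff.1 hn)
  · exact hx n _

/-- `M` kills `f` modulo `12 x` -/
def Kills (M : ℕ) (f : D) : Prop := ∃ c : D, (M : ℤ) • f = c * (12 * x 1)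

lemma exists_kills (f : D) (hf : (f : ℚ[X]).coeff 0 = 0) : ∃ M, 0 < M ∧ Kills M f := by
  refine ind (C := fun f => ∃ M, 0 < M ∧ Kills M f) ⟨1, one_pos, 0, by simp⟩ ?_ ?_ f hf
  · rintro p q ⟨M, hM, c, hc⟩ ⟨N, hN, e, he⟩
    refine ⟨M * N, by positivity, (N : ℤ) • c + (M : ℤ) • e, ?_⟩
    simp only [zsmul_eq_mul] at hc he ⊢
    push_cast at hc he ⊢
    linear_combination (N : D) * hc + (M : D) * he
  · intro n z
    refine ⟨12 * (n + 1), by positivity, z • x n, ?_⟩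
    have := x_succ n
    simp only [zsmul_eq_mul] at this ⊢
    push_cast at this ⊢
    linear_combination (-12 * z : D) * this

noncomputable def R (a : ℤ) : Fin 3 → Fin 2 → D :=
  ![![12 * x 1, 0], ![0, 144 * x 1], ![x 1 * x 1, -(12 * a * x 1)]]

lemma memK {a : ℤ} {v : Fin 2 → D} : v ∈ Submodule.span D (Set.range (R a)) ↔ ∃ α β γ : D,
    v 0 = α * (12 * x 1) + γ * (x 1 * x 1) ∧ v 1 = β * (144 * x 1) - γ * (12 * a * x 1) := by
  rw [Submodule.mem_span_range_iff_exists_fun]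
  constructor
  · rintro ⟨c, rfl⟩
    exact ⟨c 0, c 1, c 2, by simp [Fin.sum_univ_three, R], by simp [Fin.sum_univ_three, R, sub_eq_add_neg]⟩
  · rintro ⟨α, β, γ, h0, h1⟩
    refine ⟨![α, β, γ], funext fun i => ?_⟩
    fin_cases i
    · simp [Fin.sum_univ_three, R, h0]
    · simp [Fin.sum_univ_three, R, h1, sub_eq_add_neg]

def d0 : Fin 2 → ℤ := ![0, 1]

def P : Submodule D (Fin 2 → D) where
  carrier := {v | (v 0 : ℚ[X]).coeff 0 = 0}
  zero_mem' := by simp
  add_mem' := fun {a b} ha hb => by simp_all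
  smul_mem' := fun c v hv => by simp_all

lemma K_le_P {a : ℤ} {v : Fin 2 → D} (h : v ∈ Submodule.span D (Set.range (R a))) : v ∈ P := by
  obtain ⟨α, β, γ, h0, -⟩ := memK.1 h
  show (v 0 : ℚ[X]).coeff 0 = 0
  simp [h0, x_one]

lemma tau_eq (a : ℤ) : tau Dpiece d0 (R a) 1 = P.map (Submodule.mkQ _) := by
  refine le_antisymm (Submodule.span_le.2 ?_) ?_
  · intro t ht
    simp only [Set.mem_iUnion] at ht
    obtain ⟨j, hj, v, hv, rfl⟩ := ht
    refine ⟨v, ?_, rfl⟩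
    show (v 0 : ℚ[X]).coeff 0 = 0
    rcases hv 0 with h | ⟨n, z, h1, h2⟩
    · simp [h]
    · have : n ≠ 0 := by simp [d0] at h1; omega
      simp [h2, x, coeff_monomial, this]
  · rintro _ ⟨v, hv, rfl⟩
    have h1 : v = ![v 0, 0] + v 1 • ![0, 1] := by funext i; fin_cases i <;> simp
    rw [h1, map_add, map_smul]
    refine add_mem ?_ (Submodule.smul_mem _ _ (Submodule.subset_span ?_))
    · refine ind (C := fun f => Submodule.mkQ _ ![f, 0] ∈ tau Dpiece d0 (R a) 1) ?_ ?_ ?_ (v 0) hv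
      · have : (![0, 0] : Fin 2 → D) = 0 := by funext i; fin_cases i <;> rfl
        simp [this]
      · intro p q hp hq
        have : (![p + q, 0] : Fin 2 → D) = ![p, 0] + ![q, 0] := by funext i; fin_cases i <;> simp
        rw [this, map_add]; exact add_mem hp hq
      · intro n z
        refine Submodule.subset_span (Set.mem_iUnion₂.2 ⟨n + 1, by omega, _, fun i => ?_, rfl⟩)
        fin_cases i
        · exact Or.inr ⟨n + 1, z, by simp [d0], rfl⟩
        · exact Or.inl rfl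
    · refine Set.mem_iUnion₂.2 ⟨1, le_rfl, _, fun i => ?_, rfl⟩
      fin_cases i
      · exact Or.inl rfl
      · exact Or.inr ⟨0, 1, by simp [d0], by simp [x_zero]⟩

lemma exists_s (v : P) : ∃ s : ℤ, ∃ M, 0 < M ∧ Kills M (v.1 0) ∧ G M s := by
  obtain ⟨M, h1, h2⟩ := exists_kills (v.1 0) v.2
  obtain ⟨s, hs⟩ := G_ex h1
  exact ⟨s, M, h1, h2, hs⟩

noncomputable def psi0 (b : ℤ) (v : P) : Coker (R b) :=
  Submodule.Quotient.mk ![(exists_s v).choose • v.1 0, v.1 1]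

lemma mk_eq {b : ℤ} {M : ℕ} {f g : D} (h : Kills M f) {s t : ℤ} (hst : (M : ℤ) ∣ s - t) :
    (Submodule.Quotient.mk ![s • f, g] : Coker (R b)) = Submodule.Quotient.mk ![t • f, g] := by
  obtain ⟨c, hc⟩ := h
  obtain ⟨k, hk⟩ := hst
  refine (Submodule.Quotient.eq _).2 (memK.2 ⟨k • c, 0, 0, ?_, by simp⟩)
  have : (s : D) - t = M * k := by exact_mod_cast congrArg (Int.cast : ℤ → D) hk
  simp only [zsmul_eq_mul] at hc
  simp only [Pi.sub_apply, Matrix.cons_val_zero, zsmul_eq_mul]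
  push_cast at hc
  linear_combination f * this + (k : D) * hc

lemma psi0_eq (b : ℤ) (v : P) {M : ℕ} (hM : 0 < M) (h : Kills M (v.1 0)) {s : ℤ} (hs : G M s) :
    psi0 b v = Submodule.Quotient.mk ![s • v.1 0, v.1 1] := by
  obtain ⟨N, hN, h1, h2⟩ := (exists_s v).choose_spec
  obtain ⟨t, ht⟩ := G_ex (mul_pos hM hN)
  exact (mk_eq h1 (G_uniq hN h2 fun c hc => ht c (hc.mul_left M))).trans
    (mk_eq h (G_uniq hM (fun c hc => ht c (hc.mul_right N)) hs))

lemma Kills.mul {M : ℕ} {f : D} (h : Kills M f) (N : ℕ) (c : D) : Kills (M * N) (c * f) := by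
  obtain ⟨e, he⟩ := h
  refine ⟨N * c * e, ?_⟩
  simp only [zsmul_eq_mul] at he ⊢
  push_cast at he ⊢
  linear_combination (N * c : D) * he

noncomputable def psi (b : ℤ) : P →ₗ[D] Coker (R b) where
  toFun := psi0 b
  map_add' v w := by
    obtain ⟨M, hM, h1⟩ := exists_kills (v.1 0) v.2
    obtain ⟨N, hN, h2⟩ := exists_kills (w.1 0) w.2
    obtain ⟨s, hs⟩ := G_ex (mul_pos hM hN)
    have h1' : Kills (M * N) (v.1 0) := by simpa using h1.mul N 1
    have h2' : Kills (M * N) (w.1 0) := by simpa [mul_comm] using h2.mul M 1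
    have h3 : Kills (M * N) ((v + w).1 0) := by
      obtain ⟨c, hc⟩ := h1'
      obtain ⟨e, he⟩ := h2'
      exact ⟨c + e, by rw [add_mul, ← hc, ← he, ← smul_add]; rfl⟩
    rw [psi0_eq b _ (mul_pos hM hN) h3 hs, psi0_eq b _ (mul_pos hM hN) h1' hs,
      psi0_eq b _ (mul_pos hM hN) h2' hs, ← Submodule.Quotient.mk_add]
    congr 1; funext i; fin_cases i <;> simp [mul_add]
  map_smul' c v := by
    obtain ⟨M, hM, h1⟩ := exists_kills (v.1 0) v.2
    obtain ⟨s, hs⟩ := G_ex hM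
    have h3 : Kills M ((c • v).1 0) := by simpa using h1.mul 1 c
    rw [psi0_eq b _ hM h3 hs, psi0_eq b _ hM h1 hs, RingHom.id_apply, ← Submodule.Quotient.mk_smul]
    congr 1; funext i; fin_cases i <;> simp [mul_left_comm]

lemma psi_mem (b : ℤ) (v : P) : psi b v ∈ tau Dpiece d0 (R b) 1 := by
  rw [tau_eq]
  refine ⟨_, ?_, rfl⟩
  show (((exists_s v).choose • v.1 0 : D) : ℚ[X]).coeff 0 = 0
  have : (v.1 0 : ℚ[X]).coeff 0 = 0 := v.2
  simp [this]

noncomputable def q (a : ℤ) : P →ₗ[D] tau Dpiece d0 (R a) 1 :=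
  ((Submodule.mkQ _).comp P.subtype).codRestrict _ fun v => by rw [tau_eq]; exact ⟨v.1, v.2, rfl⟩

lemma q_surj (a : ℤ) : Function.Surjective (q a) := by
  rintro ⟨t, ht⟩
  obtain ⟨v, hv, rfl⟩ := (tau_eq a).le ht
  exact ⟨⟨v, hv⟩, rfl⟩

lemma ker_le {a b k : ℤ} (h : 5 * b = a + 12 * k) :
    LinearMap.ker (q a) ≤ LinearMap.ker ((psi b).codRestrict _ (psi_mem b)) := by
  intro v hv
  obtain ⟨α, β, γ, h0, h1⟩ := memK.1 ((Submodule.Quotient.mk_eq_zero _).1 (congrArg Subtype.val hv))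
  refine Subtype.ext ?_
  show psi0 b v = 0
  change v.1 0 = _ at h0
  change v.1 1 = _ at h1
  rw [psi0_eq b v (M := 12) (by norm_num) ⟨12 * α + γ * x 1, by rw [h0]; simp; ring⟩ G12,
    Submodule.Quotient.mk_eq_zero]
  have h' : (5 * b : D) = a + 12 * k := by exact_mod_cast congrArg (Int.cast : ℤ → D) h
  refine memK.2 ⟨5 * α, β + k * γ, 5 * γ, ?_, ?_⟩
  · simp [h0]; ring
  · simp only [Matrix.cons_val_one, Matrix.cons_val_zero, h1]
    linear_combination (12 * γ * x 1) * h'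

noncomputable def e {a b k : ℤ} (h : 5 * b = a + 12 * k) : tau Dpiece d0 (R a) 1 →ₗ[D] tau Dpiece d0 (R b) 1 :=
  ((LinearMap.ker (q a)).liftQ _ (ker_le h)).comp
    ((q a).quotKerEquivOfSurjective (q_surj a)).symm.toLinearMap

lemma e_q {a b k : ℤ} (h : 5 * b = a + 12 * k) (v : P) : (e h (q a v) : Coker (R b)) = psi0 b v := by
  have : ((q a).quotKerEquivOfSurjective (q_surj a)).symm (q a v) = Submodule.Quotient.mk v := by
    rw [LinearEquiv.symm_apply_eq]; rfl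
  simp only [e, LinearMap.comp_apply, LinearEquiv.coe_coe, this]
  rfl

lemma e_e {a b k l : ℤ} (h : 5 * b = a + 12 * k) (h' : 5 * a = b + 12 * l) (t : tau Dpiece d0 (R a) 1) :
    e h' (e h t) = t := by
  obtain ⟨v, rfl⟩ := q_surj a t
  obtain ⟨M, hM, h1⟩ := exists_kills (v.1 0) v.2
  obtain ⟨s, hs⟩ := G_ex hM
  let w : P := ⟨![s • v.1 0, v.1 1], by
    show ((s • v.1 0 : D) : ℚ[X]).coeff 0 = 0
    have : (v.1 0 : ℚ[X]).coeff 0 = 0 := v.2
    simp [this]⟩
  have h2 : e h (q a v) = q b w := Subtype.ext ((e_q h v).trans (psi0_eq b v hM h1 hs))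
  have h3 : Kills M (w.1 0) := by simpa [w] using h1.mul 1 s
  refine Subtype.ext ?_
  rw [h2, e_q, psi0_eq a w hM h3 hs]
  have h4 := mk_eq (b := a) (g := v.1 1) h1 (G_sq hM hs)
  rw [one_smul, mul_smul] at h4
  refine h4.trans ?_
  show _ = Submodule.Quotient.mk v.1
  congr 1; funext i; fin_cases i <;> rfl

lemma e_piece {a b k : ℤ} (h : 5 * b = a + 12 * k) (j : ℤ) (t : tau Dpiece d0 (R a) 1)
    (ht : (t : Coker (R a)) ∈ piece Dpiece d0 (R a) j) : (e h t : Coker (R b)) ∈ piece Dpiece d0 (R b) j := by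
  obtain ⟨v, hv, hvt⟩ := ht
  obtain ⟨p, hp, hpt⟩ := (tau_eq a).le t.2
  have h1 : v ∈ P := by
    have := add_mem (K_le_P ((Submodule.Quotient.eq _).1 (hvt.trans hpt.symm))) hp
    simpa using this
  have : t = q a ⟨v, h1⟩ := Subtype.ext hvt.symm
  rw [this, e_q]
  refine ⟨_, fun i => ?_, rfl⟩
  fin_cases i
  · rcases hv 0 with h | ⟨n, z, h2, h3⟩
    · exact Or.inl (by simp [h])
    · exact Or.inr ⟨n, (exists_s ⟨v, h1⟩).choose * z, h2, by simp [h3, mul_assoc]⟩
  · exact hv 1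

lemma piece0 {a : ℤ} {t : Coker (R a)} (h : t ∈ piece Dpiece d0 (R a) 0) :
    ∃ z : ℤ, t = z • Submodule.Quotient.mk ![1, 0] := by
  obtain ⟨v, hv, rfl⟩ := h
  have h1 : v 1 = 0 := by
    rcases hv 1 with h | ⟨n, z, h2, -⟩
    · exact h
    · simp [d0] at h2
  obtain ⟨z, hz⟩ : ∃ z : ℤ, v 0 = z := by
    rcases hv 0 with h | ⟨n, z, h2, h3⟩
    · exact ⟨0, by simpa using h⟩
    · obtain rfl : n = 0 := by simp [d0] at h2; omega
      exact ⟨z, by simp [h3, x_zero]⟩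
  refine ⟨z, ?_⟩
  rw [← Submodule.Quotient.mk_smul]
  congr 1; funext i; fin_cases i <;> simp [h1, hz]

lemma piece1 {a : ℤ} {t : Coker (R a)} (h : t ∈ piece Dpiece d0 (R a) 1) : ∃ c w : ℤ,
    t = (c * x 1 : D) • Submodule.Quotient.mk ![1, 0] + w • Submodule.Quotient.mk ![0, 1] := by
  obtain ⟨v, hv, rfl⟩ := h
  obtain ⟨w, hw⟩ : ∃ z : ℤ, v 1 = z := by
    rcases hv 1 with h | ⟨n, z, h2, h3⟩
    · exact ⟨0, by simpa using h⟩
    · obtain rfl : n = 0 := by simp [d0] at h2; omega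
      exact ⟨z, by simp [h3, x_zero]⟩
  obtain ⟨c, hc⟩ : ∃ z : ℤ, v 0 = z * x 1 := by
    rcases hv 0 with h | ⟨n, z, h2, h3⟩
    · exact ⟨0, by simpa using h⟩
    · obtain rfl : n = 1 := by simp [d0] at h2; omega
      exact ⟨z, by simp [h3]⟩
  refine ⟨c, w, ?_⟩
  rw [← Submodule.Quotient.mk_smul, ← Submodule.Quotient.mk_smul, ← Submodule.Quotient.mk_add]
  congr 1; funext i; fin_cases i <;> simp [hw, hc]

lemma gen0 (a : ℤ) : (Submodule.Quotient.mk ![1, 0] : Coker (R a)) ∈ piece Dpiece d0 (R a) 0 :=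
  ⟨_, fun i => by
    fin_cases i
    · exact Or.inr ⟨0, 1, by simp [d0], by simp [x_zero]⟩
    · exact Or.inl rfl, rfl⟩

lemma gen1 (a : ℤ) : (Submodule.Quotient.mk ![0, 1] : Coker (R a)) ∈ piece Dpiece d0 (R a) 1 :=
  ⟨_, fun i => by
    fin_cases i
    · exact Or.inl rfl
    · exact Or.inr ⟨0, 1, by simp [d0], by simp [x_zero]⟩, rfl⟩

lemma comb {a : ℤ} {f g : D} (h : f • (Submodule.Quotient.mk ![1, 0] : Coker (R a)) +
    g • Submodule.Quotient.mk ![0, 1] = 0) : ∃ α β γ : D,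
    f = α * (12 * x 1) + γ * (x 1 * x 1) ∧ g = β * (144 * x 1) - γ * (12 * a * x 1) := by
  rw [← Submodule.Quotient.mk_smul, ← Submodule.Quotient.mk_smul, ← Submodule.Quotient.mk_add,
    Submodule.Quotient.mk_eq_zero] at h
  simpa using memK.1 h

theorem result : ∃ (r s : ℕ) (d : Fin r → ℤ) (R R' : Fin s → Fin r → D) (n : ℤ),
    (∀ i, ∃ j, R i ∈ homog Dpiece d j) ∧ (∀ i, ∃ j, R' i ∈ homog Dpiece d j) ∧
    TauIso Dpiece d R R' n ∧ ¬ Iso Dpiece d R R' := by
  have hR : ∀ a i, ∃ j, R a i ∈ homog Dpiece d0 j := by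
    intro a i
    fin_cases i
    · refine ⟨1, fun k => ?_⟩
      fin_cases k
      · exact Or.inr ⟨1, 12, by simp [d0], by simp [R]⟩
      · exact Or.inl rfl
    · refine ⟨2, fun k => ?_⟩
      fin_cases k
      · exact Or.inl rfl
      · exact Or.inr ⟨1, 144, by simp [d0], by simp [R]⟩
    · refine ⟨2, fun k => ?_⟩
      fin_cases k
      · exact Or.inr ⟨2, 2, by simp [d0], by simpa [R] using x_succ 1⟩
      · exact Or.inr ⟨1, -(12 * a), by simp [d0], by simp [R]⟩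
  have h15 : (5 : ℤ) * 5 = 1 + 12 * 2 := by norm_num
  have h51 : (5 : ℤ) * 1 = 5 + 12 * 0 := by norm_num
  refine ⟨2, 3, d0, R 1, R 5, 1, hR 1, hR 5, ⟨LinearEquiv.ofLinearMap (e h15) (e h51)
    (LinearMap.ext (e_e h51 h15)) (LinearMap.ext (e_e h15 h51)), fun j t => ⟨e_piece h15 j t, fun h => ?_⟩⟩,
    fun ⟨φ, hφ⟩ => ?_⟩
  · have := e_piece h51 j _ h
    rwa [LinearEquiv.coe_ofLinearMap, e_e] at this
  obtain ⟨z, hz⟩ := piece0 ((hφ 0 _).1 (gen0 1))
  obtain ⟨c, w, hw⟩ := piece1 ((hφ 1 _).1 (gen1 1))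
  obtain ⟨z', hz'⟩ := piece0 ((hφ 0 (φ.symm _)).2 (by rw [φ.apply_symm_apply]; exact gen0 5))
  obtain ⟨c', w', hw'⟩ := piece1 ((hφ 1 (φ.symm _)).2 (by rw [φ.apply_symm_apply]; exact gen1 5))
  rw [LinearEquiv.symm_apply_eq] at hz' hw'
  simp only [map_add, map_smul, map_zsmul, hz, hw] at hz' hw'
  simp only [← Int.cast_smul_eq_zsmul D] at hz hw hz' hw'
  have e1 : z' * z = 1 := by
    obtain ⟨α, β, γ, h1, -⟩ := comb (a := 5) (f := z' * z - 1) (g := 0) (by
      rw [sub_smul, mul_smul, ← hz']; simp)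
    have := congrArg (fun p : D => (p : ℚ[X]).coeff 0) h1
    simp [x_one, sub_eq_zero] at this
    exact_mod_cast this
  have e2 : w' * w = 1 := by
    obtain ⟨α, β, γ, -, h1⟩ := comb (a := 5) (f := c' * x 1 * z + w' * (c * x 1)) (g := w' * w - 1) (by
      rw [sub_smul, one_smul, ← add_sub_assoc, sub_eq_zero]
      conv_rhs => rw [hw']
      simp only [add_smul, mul_smul, smul_add, add_assoc])
    have := congrArg (fun p : D => (p : ℚ[X]).coeff 0) h1
    simp [x_one, sub_eq_zero] at this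
    exact_mod_cast this
  have e3 : (x 1 * x 1 : D) • (Submodule.Quotient.mk ![1, 0] : Coker (R 1)) +
      (-(12 * x 1) : D) • Submodule.Quotient.mk ![0, 1] = 0 := by
    rw [← Submodule.Quotient.mk_smul, ← Submodule.Quotient.mk_smul, ← Submodule.Quotient.mk_add,
      Submodule.Quotient.mk_eq_zero]
    exact memK.2 ⟨0, 0, 1, by simp, by simp⟩
  have e4 := congrArg φ e3
  rw [map_add, map_smul, map_smul, hz, hw, map_zero] at e4
  obtain ⟨α, β, γ, h1, h2⟩ := comb (a := 5) (f := x 1 * x 1 * z - 12 * x 1 * (c * x 1))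
    (g := -(12 * x 1 * w)) (by
      rw [← e4]
      simp only [sub_smul, neg_smul, mul_smul, smul_add]
      abel)
  obtain ⟨a1, ha1⟩ := α.2 1
  obtain ⟨b0, hb0⟩ := β.2 0
  have hx : X ≠ (0 : ℚ[X]) := X_ne_zero
  have c12 : ((12 : D) : ℚ[X]) = 12 := rfl
  have c144 : ((144 : D) : ℚ[X]) = 144 := rfl
  have c5 : ((5 : D) : ℚ[X]) = 5 := rfl
  have h1' : X * (z - 12 * c : ℚ[X]) = (α : ℚ[X]) * 12 + (γ : ℚ[X]) * X := by
    have := congrArg Subtype.val h1
    push_cast [x_one, c12] at this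
    exact mul_left_cancel₀ hx (by linear_combination this)
  have h2' : (-(12 * w) : ℚ[X]) = (β : ℚ[X]) * 144 - (γ : ℚ[X]) * 60 := by
    have := congrArg Subtype.val h2
    push_cast [x_one, c12, c144, c5] at this
    exact mul_left_cancel₀ hx (by linear_combination this)
  have h3 := congrArg (fun p : ℚ[X] => p.coeff 1) h1'
  have h4 := congrArg (fun p : ℚ[X] => p.coeff 0) h2'
  simp at h3 h4 ha1 hb0
  have h5 : (5 * z - w : ℚ) = 12 * (5 * c + 5 * a1 + b0) := by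
    rw [← ha1, ← hb0]; linear_combination 5 * h3 + (1 / 12) * h4
  have h6 : 5 * z - w = 12 * (5 * c + 5 * a1 + b0) := by exact_mod_cast h5
  rcases Int.eq_one_or_neg_one_of_mul_eq_one' e1 with ⟨-, rfl⟩ | ⟨-, rfl⟩ <;>
    rcases Int.eq_one_or_neg_one_of_mul_eq_one' e2 with ⟨-, rfl⟩ | ⟨-, rfl⟩ <;> omega

end Pool.Agent.Results.MP_c3bf79_al.Counter
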